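import Mathlib
import Pool.Agent.N9.AD.Poly

set_option autoImplicit false
set_option linter.unusedSectionVars false

/-! # Predictable sums with square root errors -/

open MeasureTheory Filter Set
open scoped ENNReal Topology

namespace Pool.Agent.N9.EH

open Pool.Agent.R528.RM Pool.Agent.N893.SM Pool.Agent.N9.AD

variable {Ω : Type} {m0 : MeasurableSpace Ω} {μ : Measure Ω} [IsProbabilityMeasure μ]
  {ℱ : Filtration ℕ m0} {A : ℕ → Set Ω}

/-- the parameter -/
noncomputable def tB (B : ℕ → ℝ) (N : ℕ) : ℝ := min 1 √(Real.log N / B N)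

/-- **the law for predictable sums** with square root errors -/
theorem eng2 (hA : ∀ n, MeasurableSet[ℱ n] (A n)) (E : ℕ) (w : ℕ → ℕ → Ω → ℝ)
    (hw : ∀ N v, 1 ≤ v → StronglyMeasurable[ℱ (v - 1)] (w N v))
    (hw1 : ∀ N v ω, 0 ≤ w N v ω ∧ w N v ω ≤ 1) (B : ℕ → ℝ) (hB : ∀ N, 1 ≤ B N)
    (hwB : ∀ N b ω, ∑ v ∈ Finset.Ico 1 b, w N v ω ≤ B N) :
    ∀ᵐ ω ∂μ, ∀ᶠ N : ℕ in atTop, ∀ b : ℕ, b ≤ N ^ E →
      |∑ v ∈ Finset.Ico 1 b, w N v ω * In A v ω -
        ∑ v ∈ Finset.Ico 1 b, w N v ω * dens μ ℱ A (v - 1) ω| ≤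
        (E + 4) * (√(B N * Real.log N) + Real.log N) := by
  classical
  set v : ℕ → ℕ := fun k => k + 1 with hv
  set t : ℕ → ℝ := fun N => (E + 3 : ℕ) * Real.log N with ht
  set Bad : ℕ → Set Ω := fun N => ⋃ b ∈ Finset.range (N ^ E + 1),
    ({ω | t N ≤ Gx μ ℱ A (tB B N) v (fun k => w N (k + 1)) (b - 1) ω} ∪
      {ω | t N ≤ Gx μ ℱ A (-tB B N) v (fun k => w N (k + 1)) (b - 1) ω}) with hBad
  have hsum : Summable (fun N : ℕ => 2 * ((N : ℝ) ^ 2)⁻¹) :=
    (Real.summable_nat_pow_inv.2 (by norm_num)).mul_left 2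
  have hb : ∀ᶠ N in atTop, μ.real (Bad N) ≤ 2 * ((N : ℝ) ^ 2)⁻¹ := by
    filter_upwards [eventually_ge_atTop 2] with N hN
    have hN' : (2 : ℝ) ≤ N := by exact_mod_cast hN
    have hN0 : (0 : ℝ) < N := by linarith
    have hexp : Real.exp (-(t N)) = ((N : ℝ) ^ (E + 3))⁻¹ := by
      simp only [ht]
      rw [Real.exp_neg]
      congr 1
      rw [← Real.rpow_natCast, Real.rpow_def_of_pos hN0]
      congr 1
      ring
    have h1 : ∀ b ∈ Finset.range (N ^ E + 1), μ.real
        ({ω | t N ≤ Gx μ ℱ A (tB B N) v (fun k => w N (k + 1)) (b - 1) ω} ∪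
          {ω | t N ≤ Gx μ ℱ A (-tB B N) v (fun k => w N (k + 1)) (b - 1) ω}) ≤
        2 * ((N : ℝ) ^ (E + 3))⁻¹ := by
      intro b _
      refine (measureReal_union_le _ _).trans ?_
      have a1 := Gx_tail (μ := μ) hA (tB B N) (v := v) (fun i j h => by simpa [hv] using h)
        (fun k => by simp only [hv]; omega) (w := fun k => w N (k + 1))
        (fun k => hw N (k + 1) (by omega)) (fun k ω => hw1 N (k + 1) ω) (b - 1) (t N)
      have a2 := Gx_tail (μ := μ) hA (-tB B N) (v := v) (fun i j h => by simpa [hv] using h)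
        (fun k => by simp only [hv]; omega) (w := fun k => w N (k + 1))
        (fun k => hw N (k + 1) (by omega)) (fun k ω => hw1 N (k + 1) ω) (b - 1) (t N)
      rw [hexp] at a1 a2
      linarith
    have h2 : μ.real (Bad N) ≤ ∑ b ∈ Finset.range (N ^ E + 1), 2 * ((N : ℝ) ^ (E + 3))⁻¹ :=
      (measureReal_biUnion_finset_le _ _).trans (Finset.sum_le_sum fun b hb => h1 b hb)
    refine h2.trans ?_
    rw [Finset.sum_const, Finset.card_range, nsmul_eq_mul]
    push_cast
    have e1 : (N : ℝ) ^ (E + 3) = (N : ℝ) ^ E * (N : ℝ) * (N : ℝ) ^ 2 := by ring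
    have p1 : 0 < (N : ℝ) ^ E := by positivity
    have p1' : 1 ≤ (N : ℝ) ^ E := one_le_pow₀ (by linarith)
    rw [e1, mul_inv]
    have e2 : ((N : ℝ) ^ E + 1) * (2 * (((N : ℝ) ^ E * N)⁻¹ * ((N : ℝ) ^ 2)⁻¹)) =
        2 * ((((N : ℝ) ^ E + 1) * ((N : ℝ) ^ E * N)⁻¹) * ((N : ℝ) ^ 2)⁻¹) := by ring
    rw [e2]
    have e3 : ((N : ℝ) ^ E + 1) * ((N : ℝ) ^ E * N)⁻¹ ≤ 1 := by
      rw [← div_eq_mul_inv, div_le_one (by positivity)]
      nlinarith
    have e4 : 0 ≤ ((N : ℝ) ^ 2)⁻¹ := by positivity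
    nlinarith
  have h01 : ∀ᵐ ω ∂μ, ∀ n, 0 ≤ dens μ ℱ A n ω ∧ dens μ ℱ A n ω ≤ 1 := ae_all_iff.2 fun n => dens01 hA n
  filter_upwards [bc_real (μ := μ) hsum hb, h01] with ω hω hd
  filter_upwards [hω, eventually_ge_atTop 2] with N hN hN2 b hbE
  have hN' : (2 : ℝ) ≤ N := by exact_mod_cast hN2
  have hlog : 0 < Real.log (N : ℝ) := Real.log_pos (by linarith)
  have hB0 : 0 < B N := by linarith [hB N]
  have hs0 : 0 < √(Real.log N / B N) := Real.sqrt_pos.2 (by positivity)
  have hθ0 : 0 < tB B N := lt_min one_pos hs0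
  have hθ1 : tB B N ≤ 1 := min_le_left _ _
  have hθ2 : tB B N ≤ √(Real.log N / B N) := min_le_right _ _
  have g : Gx μ ℱ A (tB B N) v (fun k => w N (k + 1)) (b - 1) ω < t N ∧
      Gx μ ℱ A (-tB B N) v (fun k => w N (k + 1)) (b - 1) ω < t N := by
    constructor
    · by_contra hcon
      apply hN
      simp only [hBad, Set.mem_iUnion]
      exact ⟨b, Finset.mem_range.2 (by omega), Or.inl (not_lt.1 hcon)⟩
    · by_contra hcon
      apply hN
      simp only [hBad, Set.mem_iUnion]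
      exact ⟨b, Finset.mem_range.2 (by omega), Or.inr (not_lt.1 hcon)⟩
  have h1 := Gx_two hθ0 hθ1 (fun n => (hd n).1) (fun k => (hw1 N (k + 1) ω).1) g.1 g.2
  have eS : ∑ k ∈ Finset.range (b - 1), w N (k + 1) ω * In A (v k) ω =
      ∑ v ∈ Finset.Ico 1 b, w N v ω * In A v ω := by
    rw [Finset.sum_Ico_eq_sum_range]
    refine Finset.sum_congr rfl fun k _ => ?_
    simp only [hv]
    rw [add_comm 1 k]
  have eD : ∑ k ∈ Finset.range (b - 1), w N (k + 1) ω * dens μ ℱ A (v k - 1) ω =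
      ∑ v ∈ Finset.Ico 1 b, w N v ω * dens μ ℱ A (v - 1) ω := by
    rw [Finset.sum_Ico_eq_sum_range]
    refine Finset.sum_congr rfl fun k _ => ?_
    simp only [hv]
    rw [add_comm 1 k]
  rw [eS, eD] at h1
  set S := ∑ v ∈ Finset.Ico 1 b, w N v ω * In A v ω
  set D := ∑ v ∈ Finset.Ico 1 b, w N v ω * dens μ ℱ A (v - 1) ω with hD
  have hDB : D ≤ B N := by
    refine le_trans (Finset.sum_le_sum fun v _ => ?_) (hwB N b ω)
    exact mul_le_of_le_one_right (hw1 N v ω).1 (hd _).2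
  have hD0 : 0 ≤ D := Finset.sum_nonneg fun v _ => mul_nonneg (hw1 N v ω).1 (hd _).1
  have hθD : tB B N * D ≤ √(B N * Real.log N) := by
    have e1 : √(Real.log N / B N) * B N = √(B N * Real.log N) := by
      have e2 : √(B N * B N) = B N := Real.sqrt_mul_self hB0.le
      calc √(Real.log N / B N) * B N = √(Real.log N / B N) * √(B N * B N) := by rw [e2]
        _ = √(Real.log N / B N * (B N * B N)) := (Real.sqrt_mul (by positivity) _).symm
        _ = √(B N * Real.log N) := by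
          congr 1
          field_simp
    calc tB B N * D ≤ √(Real.log N / B N) * B N := mul_le_mul hθ2 hDB hD0 hs0.le
      _ = _ := e1
  have hsq0 : 0 ≤ √(B N * Real.log N) := Real.sqrt_nonneg _
  have ht0 : 0 ≤ t N := by simp only [ht]; positivity
  have htθ : t N / tB B N ≤ (E + 3 : ℕ) * (√(B N * Real.log N) + Real.log N) := by
    have hE0 : (0 : ℝ) ≤ (E + 3 : ℕ) := Nat.cast_nonneg _
    rcases le_total 1 (√(Real.log N / B N)) with h | h
    · have : tB B N = 1 := min_eq_left h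
      rw [this, div_one]
      simp only [ht]
      apply mul_le_mul_of_nonneg_left _ hE0
      linarith
    · have : tB B N = √(Real.log N / B N) := min_eq_right h
      rw [this, div_le_iff₀ hs0]
      simp only [ht]
      rw [mul_assoc]
      apply mul_le_mul_of_nonneg_left _ hE0
      have e1 : √(B N * Real.log N) * √(Real.log N / B N) = Real.log N := by
        rw [← Real.sqrt_mul (by positivity)]
        rw [show B N * Real.log N * (Real.log N / B N) = Real.log N * Real.log N by field_simp]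
        exact Real.sqrt_mul_self hlog.le
      nlinarith
  push_cast at htθ
  rw [abs_le]
  constructor <;> nlinarith

end Pool.Agent.N9.EH
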