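import Mathlib
import Pool.Agent.N9.EH.Eng2

set_option autoImplicit false
set_option linter.unusedSectionVars false

/-! # One increasing sequence, in all residue classes, with square root errors -/

open MeasureTheory Filter Set
open scoped ENNReal Topology

namespace Pool.Agent.N9.EH

open Pool.Agent.R528.RM Pool.Agent.N893.SM Pool.Agent.N9.AD

variable {Ω : Type} {m0 : MeasurableSpace Ω} {μ : Measure Ω} [IsProbabilityMeasure μ]
  {ℱ : Filtration ℕ m0} {A : ℕ → Set Ω}

/-- the indicator of a residue class -/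
noncomputable def cl (q a n : ℕ) : ℝ := if n % q = a then 1 else 0

lemma cl01 (q a n : ℕ) : 0 ≤ cl q a n ∧ cl q a n ≤ 1 := by
  unfold cl
  split_ifs
  · exact ⟨zero_le_one, le_rfl⟩
  · exact ⟨le_rfl, zero_le_one⟩

lemma cl_one (n : ℕ) : cl 1 0 n = 1 := by
  unfold cl
  rw [if_pos (Nat.mod_one n)]

/-- the number of members of a class -/
lemma cl_card (q a X : ℕ) : ∑ n ∈ Finset.range X, cl q a n ≤ (X : ℝ) / q + 1 := by
  classical
  unfold cl
  rw [Finset.sum_boole]
  have h1 : ((Finset.range X).filter (fun n => n % q = a)).card ≤ X / q + 1 := by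
    have h2 : ((Finset.range X).filter (fun n => n % q = a)).card ≤ (Finset.range (X / q + 1)).card := by
      apply Finset.card_le_card_of_injOn (fun n => n / q)
      · intro n hn
        have hn' := Finset.mem_filter.1 (Finset.mem_coe.1 hn)
        have hn1 := Finset.mem_range.1 hn'.1
        simp only [Finset.coe_range, Set.mem_Iio]
        have := Nat.div_le_div_right (c := q) hn1.le
        omega
      · intro n hn m hm hnm
        have hn' := (Finset.mem_filter.1 (Finset.mem_coe.1 hn)).2
        have hm' := (Finset.mem_filter.1 (Finset.mem_coe.1 hm)).2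
        simp only at hnm
        rw [← Nat.div_add_mod n q, ← Nat.div_add_mod m q, hn', hm', hnm]
    rwa [Finset.card_range] at h2
  have h3 : ((X / q : ℕ) : ℝ) ≤ (X : ℝ) / q := Nat.cast_div_le
  have h4 : (((Finset.range X).filter (fun n => n % q = a)).card : ℝ) ≤ ((X / q : ℕ) : ℝ) + 1 := by
    exact_mod_cast h1
  linarith

/-- the three components of the index -/
def iX (N : ℕ) : ℕ := (Nat.unpair (Nat.unpair N).1).1
/-- the three components of the index -/
def iq (N : ℕ) : ℕ := (Nat.unpair (Nat.unpair N).1).2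
/-- the three components of the index -/
def ia (N : ℕ) : ℕ := (Nat.unpair N).2

lemma idx (X q a : ℕ) : iX (Nat.pair (Nat.pair X q) a) = X ∧ iq (Nat.pair (Nat.pair X q) a) = q ∧
    ia (Nat.pair (Nat.pair X q) a) = a := by
  unfold iX iq ia
  simp only [Nat.unpair_pair]
  exact ⟨trivial, trivial, trivial⟩

lemma idx_le {X q a : ℕ} (hX : 2 ≤ X) (hq : q ≤ X) (ha : a ≤ X) :
    X ≤ Nat.pair (Nat.pair X q) a ∧ Nat.pair (Nat.pair X q) a ≤ X ^ 8 := by
  have h1 : X ≤ Nat.pair X q := Nat.left_le_pair X q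
  have h2 : Nat.pair X q ≤ Nat.pair (Nat.pair X q) a := Nat.left_le_pair _ _
  have h3 := Nat.pair_lt_max_add_one_sq X q
  rw [max_eq_left hq] at h3
  have h4 := Nat.pair_lt_max_add_one_sq (Nat.pair X q) a
  rw [max_eq_left (ha.trans h1)] at h4
  refine ⟨h1.trans h2, ?_⟩
  have h5 : X + 1 ≤ X ^ 2 := by nlinarith
  calc Nat.pair (Nat.pair X q) a ≤ (Nat.pair X q + 1) ^ 2 := h4.le
    _ ≤ ((X + 1) ^ 2) ^ 2 := Nat.pow_le_pow_left h3 2
    _ ≤ ((X ^ 2) ^ 2) ^ 2 := Nat.pow_le_pow_left (Nat.pow_le_pow_left h5 2) 2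
    _ = X ^ 8 := by ring

/-- **one step** -/
theorem step2 (hA : ∀ n, MeasurableSet[ℱ n] (A n)) (V : ℕ → ℕ) (n₀ : ℕ)
    (hV : ∀ a b, n₀ ≤ a → a < b → V a < V b) (hV1 : 1 ≤ V n₀) (E : ℕ)
    (hE : ∀ᶠ n : ℕ in atTop, V n ≤ n ^ E) (u : ℕ → Ω → ℝ)
    (hu : ∀ n, n₀ ≤ n → StronglyMeasurable[ℱ (V n - 1)] (u n)) (hu1 : ∀ n ω, 0 ≤ u n ω ∧ u n ω ≤ 1) :
    ∀ᵐ ω ∂μ, ∀ᶠ X : ℕ in atTop, ∀ q a y : ℕ, 1 ≤ q → q ≤ X → a ≤ X → n₀ ≤ y → y ≤ X →
      |∑ n ∈ Finset.Ico n₀ y, cl q a n * u n ω * In A (V n) ω -
        ∑ n ∈ Finset.Ico n₀ y, cl q a n * u n ω * dens μ ℱ A (V n - 1) ω| ≤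
        (8 * (E + 4)) * (√(((X : ℝ) / q + 1) * Real.log X) + Real.log X) := by
  classical
  have hge := strict_ge hV
  set w : ℕ → ℕ → Ω → ℝ := fun N v ω => ∑ n ∈ Finset.Ico n₀ (v + n₀ + 1),
    if V n = v then (if n < iX N then cl (iq N) (ia N) n * u n ω else 0) else 0 with hw
  have hin : ∀ N n ω, 0 ≤ (if n < iX N then cl (iq N) (ia N) n * u n ω else 0) ∧
      (if n < iX N then cl (iq N) (ia N) n * u n ω else 0) ≤ 1 := by
    intro N n ω
    have h1 := cl01 (iq N) (ia N) n
    have h2 := hu1 n ω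
    split_ifs
    · exact ⟨mul_nonneg h1.1 h2.1, mul_le_one₀ h1.2 h2.1 h2.2⟩
    · exact ⟨le_rfl, zero_le_one⟩
  have hw1 : ∀ N v ω, 0 ≤ w N v ω ∧ w N v ω ≤ 1 := by
    intro N v ω
    constructor
    · exact Finset.sum_nonneg fun s _ => by
        split_ifs
        · exact mul_nonneg (cl01 _ _ _).1 (hu1 s ω).1
        · exact le_rfl
        · exact le_rfl
    · by_cases h : ∃ t ∈ Finset.Ico n₀ (v + n₀ + 1), V t = v
      · obtain ⟨t, ht, htv⟩ := h
        have ht' := Finset.mem_Ico.1 ht
        have e1 : w N v ω = if t < iX N then cl (iq N) (ia N) t * u t ω else 0 := by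
          simp only [hw]
          rw [Finset.sum_eq_single t]
          · rw [if_pos htv]
          · intro s hs hst
            have hs' := Finset.mem_Ico.1 hs
            rw [if_neg]
            intro h1
            rcases Nat.lt_trichotomy s t with h2 | h2 | h2
            · have := hV s t hs'.1 h2
              omega
            · exact hst h2
            · have := hV t s ht'.1 h2
              omega
          · intro h1
            exact absurd ht h1
        rw [e1]
        exact (hin N t ω).2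
      · have e1 : w N v ω = 0 := by
          simp only [hw]
          apply Finset.sum_eq_zero
          intro s hs
          rw [if_neg]
          intro h1
          exact h ⟨s, hs, h1⟩
        rw [e1]
        exact zero_le_one
  have hmeas : ∀ N v : ℕ, 1 ≤ v → StronglyMeasurable[ℱ (v - 1)] (w N v) := by
    intro N v _
    have e1 : w N v = fun ω => ∑ n ∈ Finset.Ico n₀ (v + n₀ + 1),
      (if V n = v then (if n < iX N then cl (iq N) (ia N) n * u n ω else 0) else 0) := rfl
    rw [e1]
    refine Finset.stronglyMeasurable_fun_sum _ fun s hs => ?_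
    have hs' := Finset.mem_Ico.1 hs
    by_cases h : V s = v
    · simp only [h, if_true]
      by_cases h2 : s < iX N
      · simp only [h2, if_true]
        rw [← h]
        exact (hu s hs'.1).const_mul _
      · simp only [h2, if_false]
        exact @stronglyMeasurable_const _ _ (ℱ (v - 1)) _ _
    · simp only [h, if_false]
      exact @stronglyMeasurable_const _ _ (ℱ (v - 1)) _ _
  set B : ℕ → ℝ := fun N => (iX N : ℝ) / (iq N : ℝ) + 1 with hB
  have hB1 : ∀ N, 1 ≤ B N := by
    intro N
    simp only [hB]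
    have : 0 ≤ (iX N : ℝ) / (iq N : ℝ) := by positivity
    linarith
  have hwB : ∀ N b ω, ∑ v ∈ Finset.Ico 1 b, w N v ω ≤ B N := by
    intro N b ω
    have h1 : ∀ v ∈ Finset.Ico 1 b, w N v ω ≤
        ∑ n ∈ Finset.range (iX N), if V n = v then cl (iq N) (ia N) n else 0 := by
      intro v _
      simp only [hw]
      calc ∑ n ∈ Finset.Ico n₀ (v + n₀ + 1),
            (if V n = v then (if n < iX N then cl (iq N) (ia N) n * u n ω else 0) else 0)
          ≤ ∑ n ∈ Finset.Ico n₀ (v + n₀ + 1),
            (if n < iX N then (if V n = v then cl (iq N) (ia N) n else 0) else 0) := by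
            apply Finset.sum_le_sum
            intro n _
            have h1 := cl01 (iq N) (ia N) n
            have h2 := hu1 n ω
            have h3 : cl (iq N) (ia N) n * u n ω ≤ cl (iq N) (ia N) n :=
              mul_le_of_le_one_right h1.1 h2.2
            split_ifs
            · exact h3
            · exact le_rfl
            · exact le_rfl
            · exact le_rfl
        _ = ∑ n ∈ (Finset.Ico n₀ (v + n₀ + 1)).filter (fun n => n < iX N),
            (if V n = v then cl (iq N) (ia N) n else 0) := (Finset.sum_filter _ _).symm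
        _ ≤ _ := by
            apply Finset.sum_le_sum_of_subset_of_nonneg
            · intro n hn
              exact Finset.mem_range.2 (Finset.mem_filter.1 hn).2
            · intro n _ _
              split_ifs
              · exact (cl01 _ _ _).1
              · exact le_rfl
    refine (Finset.sum_le_sum h1).trans ?_
    rw [Finset.sum_comm]
    calc ∑ n ∈ Finset.range (iX N), ∑ v ∈ Finset.Ico 1 b, (if V n = v then cl (iq N) (ia N) n else 0)
        ≤ ∑ n ∈ Finset.range (iX N), cl (iq N) (ia N) n := by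
          apply Finset.sum_le_sum
          intro n _
          rw [Finset.sum_ite_eq]
          split_ifs
          · exact le_rfl
          · exact (cl01 _ _ _).1
      _ ≤ B N := cl_card _ _ _
  have hw0 : ∀ N v ω, v < V n₀ → w N v ω = 0 := by
    intro N v ω hv
    simp only [hw]
    apply Finset.sum_eq_zero
    intro s hs
    have hs' := Finset.mem_Ico.1 hs
    rw [if_neg]
    intro h1
    rcases Nat.eq_or_lt_of_le hs'.1 with h2 | h2
    · rw [← h2] at h1
      omega
    · have := hV n₀ s le_rfl h2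
      omega
  obtain ⟨n₁, hn₁⟩ := eventually_atTop.1 hE
  filter_upwards [eng2 (μ := μ) hA E w hmeas hw1 B hB1 hwB] with ω hω
  obtain ⟨N₁, hN₁⟩ := eventually_atTop.1 hω
  filter_upwards [eventually_ge_atTop n₁, eventually_ge_atTop N₁, eventually_ge_atTop 2,
    eventually_ge_atTop n₀] with X h1 h2 h3 h4 q a y hq hqX ha hy hyX
  obtain ⟨i1, i2, i3⟩ := idx X q a
  obtain ⟨i4, i5⟩ := idx_le h3 hqX ha
  set N := Nat.pair (Nat.pair X q) a with hN
  have hVy : V y ≤ N ^ E := by
    have e1 : V y ≤ V X := by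
      rcases Nat.eq_or_lt_of_le hyX with h5 | h5
      · rw [h5]
      · exact (hV y X hy h5).le
    exact (e1.trans (hn₁ X h1)).trans (Nat.pow_le_pow_left i4 E)
  have h6 := hN₁ N (h2.trans i4) (V y) hVy
  have hle : V n₀ ≤ V y := by
    rcases Nat.eq_or_lt_of_le hy with h5 | h5
    · rw [h5]
    · exact (hV n₀ y le_rfl h5).le
  have key : ∀ F : ℕ → ℝ, ∑ v ∈ Finset.Ico 1 (V y), w N v ω * F v =
      ∑ n ∈ Finset.Ico n₀ y, cl q a n * u n ω * F (V n) := by
    intro F
    rw [← Finset.sum_Ico_consecutive _ hV1 hle]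
    have e1 : ∑ v ∈ Finset.Ico 1 (V n₀), w N v ω * F v = 0 := by
      apply Finset.sum_eq_zero
      intro v hv
      rw [hw0 N v ω (Finset.mem_Ico.1 hv).2, zero_mul]
    rw [e1, zero_add]
    have e2 := fiber_inc hV (fun n => if n < iX N then cl (iq N) (ia N) n * u n ω else 0) F n₀
      (y - n₀) le_rfl
    rw [Nat.add_sub_cancel' hy] at e2
    refine e2.trans (Finset.sum_congr rfl fun n hn => ?_)
    have hn' := Finset.mem_Ico.1 hn
    rw [i1, i2, i3, if_pos (by omega)]
  rw [key (fun v => In A v ω), key (fun v => dens μ ℱ A (v - 1) ω)] at h6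
  have hXR : (2 : ℝ) ≤ X := by exact_mod_cast h3
  have hL : 0 ≤ Real.log (X : ℝ) := Real.log_nonneg (by linarith)
  have hBN : B N = (X : ℝ) / q + 1 := by
    simp only [hB]
    rw [i1, i2]
  have hBN0 : 0 ≤ B N := by linarith [hB1 N]
  have hNpos : (0 : ℝ) < N := by
    have : 0 < N := by omega
    exact_mod_cast this
  have hlogN : Real.log (N : ℝ) ≤ 8 * Real.log X := by
    have e1 : Real.log (N : ℝ) ≤ Real.log ((X : ℝ) ^ 8) :=
      Real.log_le_log hNpos (by exact_mod_cast i5)
    rw [Real.log_pow] at e1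
    exact_mod_cast e1
  have hsq : √(B N * Real.log N) ≤ 8 * √(((X : ℝ) / q + 1) * Real.log X) := by
    rw [← hBN]
    calc √(B N * Real.log N) ≤ √(8 ^ 2 * (B N * Real.log X)) := by
          apply Real.sqrt_le_sqrt
          have : B N * Real.log N ≤ B N * (8 * Real.log X) := mul_le_mul_of_nonneg_left hlogN hBN0
          have h9 : 0 ≤ B N * Real.log X := mul_nonneg hBN0 hL
          nlinarith
      _ = 8 * √(B N * Real.log X) := by
          rw [Real.sqrt_mul (by norm_num), Real.sqrt_sq (by norm_num)]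
  refine h6.trans ?_
  have hE0 : (0 : ℝ) ≤ (E : ℝ) + 4 := by positivity
  calc ((E : ℝ) + 4) * (√(B N * Real.log N) + Real.log N) ≤
        ((E : ℝ) + 4) * (8 * √(((X : ℝ) / q + 1) * Real.log X) + 8 * Real.log X) := by gcongr
    _ = _ := by ring

end Pool.Agent.N9.EH
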