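import Mathlib
import Pool.Agent.N9.EH.Step
import Pool.Agent.N893.SM.M1

set_option autoImplicit false
set_option linter.unusedSectionVars false

/-! # Systems of increasing sequences in all residue classes, with square root errors -/

open MeasureTheory Filter Set
open scoped ENNReal Topology

namespace Pool.Agent.N9.EH

open Pool.Agent.R528.RM Pool.Agent.N893.SM Pool.Agent.N9.AD

variable {Ω : Type} {m0 : MeasurableSpace Ω} {μ : Measure Ω} [IsProbabilityMeasure μ]
  {ℱ : Filtration ℕ m0} {A : ℕ → Set Ω}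

/-- windows of one period -/
lemma win {P : ℕ} (c : ℕ → ℝ) (hper : ∀ n, c (n + P) = c n) :
    ∀ x, ∑ n ∈ Finset.Ico x (x + P), c n = ∑ n ∈ Finset.range P, c n := by
  intro x
  induction x with
  | zero => rw [zero_add, ← Finset.range_eq_Ico]
  | succ x ih =>
    have e1 : ∑ n ∈ Finset.Ico x (x + P + 1), c n = ∑ n ∈ Finset.Ico x (x + P), c n + c (x + P) :=
      Finset.sum_Ico_succ_top (by omega) _
    have e2 : ∑ n ∈ Finset.Ico x (x + P + 1), c n =
        c x + ∑ n ∈ Finset.Ico (x + 1) (x + P + 1), c n :=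
      Finset.sum_eq_sum_Ico_succ_bot (by omega) _
    rw [show x + 1 + P = x + P + 1 by ring]
    have := hper x
    linarith

/-- windows of several periods -/
lemma wins {P : ℕ} (c : ℕ → ℝ) (hper : ∀ n, c (n + P) = c n) :
    ∀ q x, ∑ n ∈ Finset.Ico x (x + P * q), c n = q * ∑ n ∈ Finset.range P, c n := by
  intro q
  induction q with
  | zero => intro x; simp
  | succ q ih =>
    intro x
    have e1 : ∑ n ∈ Finset.Ico x (x + P * q), c n +
        ∑ n ∈ Finset.Ico (x + P * q) (x + P * (q + 1)), c n =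
        ∑ n ∈ Finset.Ico x (x + P * (q + 1)), c n :=
      Finset.sum_Ico_consecutive _ (by omega) (by nlinarith)
    rw [← e1, ih, show x + P * (q + 1) = x + P * q + P by ring, win c hper]
    push_cast
    ring

lemma per_mul {P : ℕ} (c : ℕ → ℝ) (hper : ∀ n, c (n + P) = c n) (q : ℕ) : ∀ n, c (n + P * q) = c n := by
  induction q with
  | zero => intro n; simp
  | succ q ih =>
    intro n
    rw [show n + P * (q + 1) = n + P * q + P by ring, hper, ih]

/-- a periodic function with mean zero -/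
lemma per0 {P : ℕ} (hP : 0 < P) (g : ℕ → ℝ) (hper : ∀ n, g (n + P) = g n)
    (h0 : ∑ n ∈ Finset.range P, g n = 0) {M : ℝ} (hM : ∑ n ∈ Finset.range P, |g n| ≤ M) (x y : ℕ) :
    |∑ n ∈ Finset.Ico x (x + y), g n| ≤ M := by
  have hy : P * (y / P) + y % P = y := Nat.div_add_mod y P
  have hr : y % P < P := Nat.mod_lt y hP
  generalize y / P = q at hy
  generalize y % P = r at hy hr
  have e1 : ∑ n ∈ Finset.Ico x (x + P * q), g n + ∑ n ∈ Finset.Ico (x + P * q) (x + y), g n =
      ∑ n ∈ Finset.Ico x (x + y), g n := Finset.sum_Ico_consecutive _ (by omega) (by omega)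
  rw [← e1, wins g hper, h0, mul_zero, zero_add]
  calc |∑ n ∈ Finset.Ico (x + P * q) (x + y), g n| ≤ ∑ n ∈ Finset.Ico (x + P * q) (x + y), |g n| :=
        Finset.abs_sum_le_sum_abs _ _
    _ ≤ ∑ n ∈ Finset.Ico (x + P * q) (x + P * q + P), |g n| :=
        Finset.sum_le_sum_of_subset_of_nonneg (Finset.Ico_subset_Ico le_rfl (by omega))
          fun n _ _ => abs_nonneg _
    _ = ∑ n ∈ Finset.range P, |g n| := win (fun n => |g n|) (fun n => by rw [hper]) _
    _ ≤ M := hM

/-- the share of the class among the admissible residues -/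
noncomputable def kap (chi : ℕ → ℝ) (W q a : ℕ) : ℝ :=
  (∑ b ∈ Finset.range (W * q), cl q a b * chi b) / (q * ∑ b ∈ Finset.range W, chi b)

lemma kap_le {W q : ℕ} (hW : 0 < W) (hq : 1 ≤ q) (chi : ℕ → ℝ) (h01 : ∀ n, 0 ≤ chi n ∧ chi n ≤ 1)
    (a : ℕ) : 0 ≤ kap chi W q a ∧
      kap chi W q a ≤ ((W : ℝ) + 1) / (∑ b ∈ Finset.range W, chi b) / q := by
  have hK0 : 0 ≤ ∑ b ∈ Finset.range (W * q), cl q a b * chi b :=
    Finset.sum_nonneg fun b _ => mul_nonneg (cl01 _ _ _).1 (h01 b).1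
  have hqR : (0 : ℝ) < q := by exact_mod_cast hq
  have hK1 : ∑ b ∈ Finset.range (W * q), cl q a b * chi b ≤ (W : ℝ) + 1 := by
    calc ∑ b ∈ Finset.range (W * q), cl q a b * chi b ≤ ∑ b ∈ Finset.range (W * q), cl q a b :=
          Finset.sum_le_sum fun b _ => mul_le_of_le_one_right (cl01 _ _ _).1 (h01 b).2
      _ ≤ ((W * q : ℕ) : ℝ) / q + 1 := cl_card _ _ _
      _ = (W : ℝ) + 1 := by
        push_cast
        field_simp
  have hT0 : 0 ≤ ∑ b ∈ Finset.range W, chi b := Finset.sum_nonneg fun b _ => (h01 b).1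
  unfold kap
  constructor
  · positivity
  · rw [div_div, mul_comm (∑ b ∈ Finset.range W, chi b) (q : ℝ)]
    exact div_le_div_of_nonneg_right hK1 (by positivity)

/-- the base case -/
lemma base {W q : ℕ} (hW : 0 < W) (hq : 1 ≤ q) (chi : ℕ → ℝ) (h01 : ∀ n, 0 ≤ chi n ∧ chi n ≤ 1)
    (hper : ∀ n, chi (n + W) = chi n) (a x y : ℕ) :
    |∑ n ∈ Finset.Ico x (x + y), (cl q a n - kap chi W q a) * chi n| ≤ 2 * (W + 1) := by
  have hqR : (0 : ℝ) < q := by exact_mod_cast hq
  set T := ∑ b ∈ Finset.range W, chi b with hT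
  set K := ∑ b ∈ Finset.range (W * q), cl q a b * chi b with hK
  have hT0 : 0 ≤ T := Finset.sum_nonneg fun b _ => (h01 b).1
  have hK0 : 0 ≤ K := Finset.sum_nonneg fun b _ => mul_nonneg (cl01 _ _ _).1 (h01 b).1
  have hK1 : K ≤ (W : ℝ) + 1 := by
    calc K ≤ ∑ b ∈ Finset.range (W * q), cl q a b :=
          Finset.sum_le_sum fun b _ => mul_le_of_le_one_right (cl01 _ _ _).1 (h01 b).2
      _ ≤ ((W * q : ℕ) : ℝ) / q + 1 := cl_card _ _ _
      _ = (W : ℝ) + 1 := by
        push_cast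
        field_simp
  have hS : ∑ b ∈ Finset.range (W * q), chi b = q * T := by
    have := wins chi hper q 0
    rw [zero_add, ← Finset.range_eq_Ico] at this
    exact this
  have hKS : K ≤ q * T := by
    rw [← hS]
    exact Finset.sum_le_sum fun b _ => mul_le_of_le_one_left (h01 b).1 (cl01 _ _ _).2
  have hκ : kap chi W q a * (q * T) = K := by
    unfold kap
    by_cases h : (q : ℝ) * T = 0
    · rw [h, mul_zero]
      rw [h] at hKS
      linarith
    · exact div_mul_cancel₀ _ h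
  have hκ0 : 0 ≤ kap chi W q a := (kap_le hW hq chi h01 a).1
  apply per0 (P := W * q) (Nat.mul_pos hW hq)
  · intro n
    have e1 : cl q a (n + W * q) = cl q a n := by
      unfold cl
      rw [Nat.add_mul_mod_self_right]
    rw [e1, per_mul chi hper]
  · have e1 : ∀ n ∈ Finset.range (W * q), (cl q a n - kap chi W q a) * chi n =
        cl q a n * chi n - kap chi W q a * chi n := fun n _ => by ring
    rw [Finset.sum_congr rfl e1, Finset.sum_sub_distrib, ← Finset.mul_sum, hS, hκ, ← hK, sub_self]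
  · have e1 : ∀ n ∈ Finset.range (W * q), |(cl q a n - kap chi W q a) * chi n| ≤
        cl q a n * chi n + kap chi W q a * chi n := fun n _ => by
      rw [abs_mul, abs_of_nonneg (h01 n).1, ← add_mul]
      apply mul_le_mul_of_nonneg_right _ (h01 n).1
      rw [abs_le]
      have := (cl01 q a n).1
      constructor <;> linarith
    refine (Finset.sum_le_sum e1).trans ?_
    rw [Finset.sum_add_distrib, ← Finset.mul_sum, hS, hκ, ← hK]
    linarith

/-- the product after `j` steps -/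
noncomputable def PP (A : ℕ → Set Ω) (chi : ℕ → ℝ) (V : ℕ → ℕ → ℕ) (j n : ℕ) (ω : Ω) : ℝ :=
  chi n * ∏ i ∈ Finset.range j, In A (V i n) ω

lemma PP01 {chi : ℕ → ℝ} (h01 : ∀ n, 0 ≤ chi n ∧ chi n ≤ 1) (V : ℕ → ℕ → ℕ) (j n : ℕ) (ω : Ω) :
    0 ≤ PP A chi V j n ω ∧ PP A chi V j n ω ≤ 1 := by
  have b1 : 0 ≤ ∏ i ∈ Finset.range j, In A (V i n) ω := Finset.prod_nonneg fun i _ => In_nonneg _ _
  have b2 : ∏ i ∈ Finset.range j, In A (V i n) ω ≤ 1 :=
    Finset.prod_le_one (fun i _ => In_nonneg _ _) (fun i _ => In_le _ _)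
  exact ⟨mul_nonneg (h01 n).1 b1, mul_le_one₀ (h01 n).2 b1 b2⟩

/-- the error term -/
noncomputable def RR (X q : ℕ) : ℝ := √(((X : ℝ) / q + 1) * Real.log X) + Real.log X

lemma RR_nonneg (X q : ℕ) : 0 ≤ RR X q :=
  add_nonneg (Real.sqrt_nonneg _) (Real.log_natCast_nonneg X)

lemma RR_one {X q : ℕ} (hq : 1 ≤ q) : RR X 1 / q ≤ RR X q := by
  unfold RR
  have hqR : (1 : ℝ) ≤ q := by exact_mod_cast hq
  have hq0 : (0 : ℝ) < q := by linarith
  have hL : 0 ≤ Real.log (X : ℝ) := Real.log_natCast_nonneg X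
  have hX : (0 : ℝ) ≤ X := Nat.cast_nonneg X
  rw [add_div]
  apply add_le_add
  · rw [div_le_iff₀ hq0]
    have e1 : √(((X : ℝ) / q + 1) * Real.log X) * q = √(((X : ℝ) / q + 1) * Real.log X * q ^ 2) := by
      rw [Real.sqrt_mul (show (0 : ℝ) ≤ ((X : ℝ) / q + 1) * Real.log X by positivity) ((q : ℝ) ^ 2),
        Real.sqrt_sq hq0.le]
    rw [e1]
    apply Real.sqrt_le_sqrt
    have e2 : ((X : ℝ) / q + 1) * Real.log X * q ^ 2 = (X * q + q ^ 2) * Real.log X := by
      field_simp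
    rw [e2]
    apply mul_le_mul_of_nonneg_right _ hL
    push_cast
    rw [div_one]
    nlinarith
  · exact div_le_self hL hqR

/-- **systems** -/
theorem sys2 (hA : ∀ n, MeasurableSet[ℱ n] (A n)) {W : ℕ} (hW : 0 < W) (lam : ℕ → Ω → ℝ)
    (hlam : ∀ᵐ ω ∂μ, ∀ n, 2 ≤ n → 0 ≤ lam n ω ∧ lam (n + 1) ω ≤ lam n ω ∧
      (Nat.Coprime (n + 1) W → dens μ ℱ A n ω = lam n ω))
    (k : ℕ) (V : ℕ → ℕ → ℕ) (n₀ : ℕ)
    (hV : ∀ i < k, ∀ a b, n₀ ≤ a → a < b → V i a < V i b)
    (hVV : ∀ i j, i < j → j < k → ∀ n, n₀ ≤ n → V i n < V j n)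
    (hV3 : ∀ i < k, ∀ n, n₀ ≤ n → 3 ≤ V i n)
    (E : ℕ) (hE : ∀ i < k, ∀ᶠ n : ℕ in atTop, V i n ≤ n ^ E)
    (chi : ℕ → ℝ) (h01 : ∀ n, 0 ≤ chi n ∧ chi n ≤ 1) (hper : ∀ n, chi (n + W) = chi n)
    (hchi : ∀ n, n₀ ≤ n → chi n ≠ 0 → ∀ i < k, Nat.Coprime (V i n) W) :
    ∀ j ≤ k, ∀ᵐ ω ∂μ, ∃ C : ℝ, 0 < C ∧ ∀ᶠ X : ℕ in atTop, ∀ q a y : ℕ, 1 ≤ q → q ≤ X → a < q →
      n₀ ≤ y → y ≤ X →
      |∑ n ∈ Finset.Ico n₀ y, (cl q a n - kap chi W q a) * PP A chi V j n ω| ≤ C * RR X q := by
  classical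
  intro j hj
  induction j with
  | zero =>
    filter_upwards with ω
    have hlogT : Tendsto (fun N : ℕ => Real.log (N : ℝ)) atTop atTop :=
      Real.tendsto_log_atTop.comp tendsto_natCast_atTop_atTop
    refine ⟨2 * (W + 1), by positivity, ?_⟩
    filter_upwards [hlogT.eventually_ge_atTop 1] with X hX q a y hq hqX ha hy hyX
    have e1 : ∀ n ∈ Finset.Ico n₀ y, (cl q a n - kap chi W q a) * PP A chi V 0 n ω =
        (cl q a n - kap chi W q a) * chi n := by
      intro n _
      unfold PP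
      rw [Finset.range_zero, Finset.prod_empty, mul_one]
    rw [Finset.sum_congr rfl e1]
    have h1 := base hW hq chi h01 hper a n₀ (y - n₀)
    rw [Nat.add_sub_cancel' hy] at h1
    refine h1.trans ?_
    have h2 : 1 ≤ RR X q := by
      unfold RR
      have := Real.sqrt_nonneg (((X : ℝ) / q + 1) * Real.log X)
      linarith
    have h3 : (0 : ℝ) ≤ 2 * (W + 1) := by positivity
    nlinarith
  | succ j ih =>
    have hjk : j < k := by omega
    set u : ℕ → Ω → ℝ := fun n ω => PP A chi V j n ω with hu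
    have hum : ∀ n, n₀ ≤ n → StronglyMeasurable[ℱ (V j n - 1)] (u n) := by
      intro n hn
      have e1 : u n = fun ω => chi n * ∏ i ∈ Finset.range j, In A (V i n) ω := rfl
      rw [e1]
      refine StronglyMeasurable.const_mul ?_ _
      refine Finset.stronglyMeasurable_fun_prod _ fun i hi => ?_
      have hi' := Finset.mem_range.1 hi
      have h1 := hVV i j hi' hjk n hn
      exact (@stronglyMeasurable_const _ _ (ℱ (V j n - 1)) _ _).indicator
        (ℱ.mono (by omega) _ (hA (V i n)))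
    have hst := step2 (μ := μ) hA (V j) n₀ (hV j hjk) (by have := hV3 j hjk n₀ le_rfl; omega) E
      (hE j hjk) u hum (fun n ω => PP01 h01 V j n ω)
    filter_upwards [ih (by omega), hst, hlam] with ω hω1 hω2 hl
    obtain ⟨C1, hC10, hC1⟩ := hω1
    -- the antitone sequence
    have hanti : ∀ a b, 2 ≤ a → a ≤ b → lam b ω ≤ lam a ω := by
      intro a b ha hab
      induction b, hab using Nat.le_induction with
      | base => exact le_rfl
      | succ b hb ih2 => exact ((hl b (by omega)).2.1).trans ih2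
    set l : ℕ → ℝ := fun s => lam (V j (n₀ + s) - 1) ω with hldef
    have hl1 : ∀ s, l (s + 1) ≤ l s := by
      intro s
      simp only [hldef]
      have h1 := hV3 j hjk (n₀ + s) (by omega)
      have h2 := hV j hjk (n₀ + s) (n₀ + (s + 1)) (by omega) (by omega)
      exact hanti _ _ (by omega) (by omega)
    have hl0 : ∀ s, 0 ≤ l s := by
      intro s
      simp only [hldef]
      have h1 := hV3 j hjk (n₀ + s) (by omega)
      exact (hl _ (by omega)).1
    set T := ∑ b ∈ Finset.range W, chi b with hT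
    have hT0 : 0 ≤ T := Finset.sum_nonneg fun b _ => (h01 b).1
    set K₀ : ℝ := ((W : ℝ) + 1) / T with hK₀
    have hK₀0 : 0 ≤ K₀ := by positivity
    set C0 : ℝ := 8 * (E + 4) with hC0
    have hC00 : 0 < C0 := by positivity
    refine ⟨C0 + C0 * K₀ + C1 * l 0, by have := hl0 0; positivity, ?_⟩
    filter_upwards [hC1, hω2, eventually_ge_atTop 1] with X h1 h2 hX1 q a y hq hqX ha hy hyX
    have hR0 := RR_nonneg X q
    have g1 := h2 q a y hq hqX (by omega) hy hyX
    have g2 := h2 1 0 y le_rfl hX1 (by omega) hy hyX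
    obtain ⟨k1, k2⟩ := kap_le hW hq chi h01 a
    set κ := kap chi W q a with hκ
    -- the four sums
    set I1 := ∑ n ∈ Finset.Ico n₀ y, cl q a n * u n ω * In A (V j n) ω with hI1
    set D1 := ∑ n ∈ Finset.Ico n₀ y, cl q a n * u n ω * dens μ ℱ A (V j n - 1) ω with hD1
    set I2 := ∑ n ∈ Finset.Ico n₀ y, cl 1 0 n * u n ω * In A (V j n) ω with hI2
    set D2 := ∑ n ∈ Finset.Ico n₀ y, cl 1 0 n * u n ω * dens μ ℱ A (V j n - 1) ω with hD2
    have e1 : ∑ n ∈ Finset.Ico n₀ y, (cl q a n - κ) * PP A chi V (j + 1) n ω = I1 - κ * I2 := by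
      rw [hI1, hI2, Finset.mul_sum, ← Finset.sum_sub_distrib]
      refine Finset.sum_congr rfl fun n _ => ?_
      rw [cl_one]
      simp only [hu]
      unfold PP
      rw [Finset.prod_range_succ]
      ring
    have e2 : D1 - κ * D2 = ∑ s ∈ Finset.range (y - n₀), l s * ((cl q a (n₀ + s) - κ) * u (n₀ + s) ω) := by
      rw [hD1, hD2, Finset.mul_sum, ← Finset.sum_sub_distrib, Finset.sum_Ico_eq_sum_range]
      refine Finset.sum_congr rfl fun s _ => ?_
      rw [cl_one]
      by_cases hc : chi (n₀ + s) = 0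
      · have : u (n₀ + s) ω = 0 := by
          simp only [hu]
          unfold PP
          rw [hc, zero_mul]
        rw [this]
        ring
      · have h5 := hV3 j hjk (n₀ + s) (by omega)
        have h6 := (hl (V j (n₀ + s) - 1) (by omega)).2.2
        rw [Nat.sub_add_cancel (by omega)] at h6
        rw [h6 (hchi (n₀ + s) (by omega) hc j hjk)]
        simp only [hldef]
        ring
    have g3 : |D1 - κ * D2| ≤ C1 * RR X q * l 0 := by
      rw [e2]
      apply abel_anti hl1 hl0 (by positivity)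
      intro n hn
      have h7 := h1 q a (n₀ + n) hq hqX ha (by omega) (by omega)
      rw [Finset.sum_Ico_eq_sum_range] at h7
      rw [Nat.add_sub_cancel_left] at h7
      exact h7
    rw [e1]
    have g4 : |κ * (I2 - D2)| ≤ C0 * K₀ * RR X q := by
      rw [abs_mul, abs_of_nonneg k1]
      have h8 : |I2 - D2| ≤ C0 * RR X 1 := g2
      have h9 := RR_nonneg X 1
      have hqR : (0 : ℝ) < q := by exact_mod_cast hq
      calc κ * |I2 - D2| ≤ (K₀ / q) * (C0 * RR X 1) := by
            apply mul_le_mul k2 h8 (abs_nonneg _) (by positivity)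
        _ = C0 * K₀ * (RR X 1 / q) := by ring
        _ ≤ C0 * K₀ * RR X q := mul_le_mul_of_nonneg_left (RR_one hq) (by positivity)
    have g5 : |I1 - D1| ≤ C0 * RR X q := g1
    have e3 : I1 - κ * I2 = (I1 - D1) - κ * (I2 - D2) + (D1 - κ * D2) := by ring
    rw [e3]
    have t1 := abs_add_le ((I1 - D1) - κ * (I2 - D2)) (D1 - κ * D2)
    have t2 := abs_sub (I1 - D1) (κ * (I2 - D2))
    nlinarith

end Pool.Agent.N9.EH
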