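import Mathlib
import Pool.Agent.N9.EH.Ind
import Pool.Agent.N9.AD.Poly2

set_option autoImplicit false
set_option linter.unusedSectionVars false

/-! # Systems of polynomials in all residue classes, with square root errors -/

open MeasureTheory Filter Set Polynomial
open scoped ENNReal Topology

namespace Pool.Agent.N9.EH

open Pool.Agent.R528.RM Pool.Agent.N893.SM Pool.Agent.N9.AD

/-- the indicator of the residues free of local obstructions -/
noncomputable def chiP {k : ℕ} (f : Fin k → ℤ[X]) (W n : ℕ) : ℝ :=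
  open Classical in if IsCoprime ((∏ i, f i).eval (n : ℤ)) (W : ℤ) then 1 else 0

lemma chiP01 {k : ℕ} (f : Fin k → ℤ[X]) (W n : ℕ) : 0 ≤ chiP f W n ∧ chiP f W n ≤ 1 := by
  unfold chiP
  split_ifs
  · exact ⟨zero_le_one, le_rfl⟩
  · exact ⟨le_rfl, zero_le_one⟩

lemma chiP_per {k : ℕ} (f : Fin k → ℤ[X]) (W n : ℕ) : chiP f W (n + W) = chiP f W n := by
  unfold chiP
  by_cases h : IsCoprime ((∏ i, f i).eval (n : ℤ)) (W : ℤ)
  · rw [if_pos h, if_pos ((cop_per _ W n).2 h)]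
  · rw [if_neg h, if_neg (fun h' => h ((cop_per _ W n).1 h'))]

/-- the indicator of the event that all values are chosen -/
noncomputable def QQ {Ω : Type} (A : ℕ → Set Ω) {k : ℕ} (f : Fin k → ℤ[X]) (n : ℕ) (ω : Ω) : ℝ :=
  open Classical in if ∀ i, ∃ v : ℕ, ω ∈ A v ∧ (f i).eval (n : ℤ) = v then 1 else 0

lemma QQ01 {Ω : Type} (A : ℕ → Set Ω) {k : ℕ} (f : Fin k → ℤ[X]) (n : ℕ) (ω : Ω) :
    0 ≤ QQ A f n ω ∧ QQ A f n ω ≤ 1 := by
  unfold QQ
  split_ifs
  · exact ⟨zero_le_one, le_rfl⟩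
  · exact ⟨le_rfl, zero_le_one⟩

/-- **the law for systems of polynomials in residue classes** -/
theorem poly2 {Ω : Type} {m0 : MeasurableSpace Ω} {μ : Measure Ω} [IsProbabilityMeasure μ]
    {ℱ : Filtration ℕ m0} {A : ℕ → Set Ω} (hA : ∀ n, MeasurableSet[ℱ n] (A n)) {W : ℕ} (hW : 0 < W)
    (hcop : ∀ n, ¬ Nat.Coprime n W → A n = ∅) (lam : ℕ → Ω → ℝ)
    (hlam : ∀ᵐ ω ∂μ, ∀ n, 2 ≤ n → 0 ≤ lam n ω ∧ lam (n + 1) ω ≤ lam n ω ∧
      (Nat.Coprime (n + 1) W → dens μ ℱ A n ω = lam n ω))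
    (k : ℕ) (f : Fin k → ℤ[X]) (hf : Function.Injective f)
    (hdeg : ∀ i, 0 < (f i).natDegree) (hlc : ∀ i, 0 < (f i).leadingCoeff) :
    ∀ᵐ ω ∂μ, ∃ C : ℝ, 0 < C ∧ ∀ x q a : ℕ, 2 ≤ x → 1 ≤ q → q ≤ x → a < q →
      |∑ n ∈ Finset.range x, (cl q a n - kap (chiP f W) W q a) * QQ A f n ω| ≤ C * RR x q := by
  classical
  obtain ⟨σ, n₁, hσ⟩ := sorted f hf
  -- a common threshold
  have hall : ∀ᶠ n₀ : ℕ in atTop, ∀ i, (∀ a b : ℕ, n₀ ≤ a → a < b →
      (f i).eval (a : ℤ) < (f i).eval (b : ℤ)) ∧ ∀ n : ℕ, n₀ ≤ n → 0 < (f i).eval (n : ℤ) := by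
    rw [eventually_all]
    intro i
    obtain ⟨a, ha⟩ := ev_inc (f i) (hlc i) (hdeg i)
    obtain ⟨b, hb⟩ := eventually_atTop.1 (ev_pos (f i) (hlc i))
    filter_upwards [eventually_ge_atTop a, eventually_ge_atTop b] with n h1 h2
    exact ⟨fun u v h3 h4 => ha u v (h1.trans h3) h4, fun u h3 => hb u (h2.trans h3)⟩
  obtain ⟨m₀, hm₀, hm₁⟩ := (hall.and (eventually_ge_atTop n₁)).exists
  set n₀ := m₀ + 3 with hn₀def
  have hn₁ : n₁ ≤ n₀ := by omega
  have hn₀ : ∀ i, (∀ a b : ℕ, n₀ ≤ a → a < b →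
      (f i).eval (a : ℤ) < (f i).eval (b : ℤ)) ∧ ∀ n : ℕ, n₀ ≤ n → 3 ≤ (f i).eval (n : ℤ) := by
    intro i
    refine ⟨fun a b h1 h2 => (hm₀ i).1 a b (by omega) h2, fun n h1 => ?_⟩
    have g0 := (hm₀ i).2 m₀ le_rfl
    have g1 := (hm₀ i).1 m₀ (m₀ + 1) le_rfl (by omega)
    have g2 := (hm₀ i).1 (m₀ + 1) (m₀ + 2) (by omega) (by omega)
    have g3 := (hm₀ i).1 (m₀ + 2) n (by omega) (by omega)
    omega
  set E : ℕ := (∑ i, (f i).natDegree) + 1 with hE
  have hEi : ∀ i, (f i).natDegree < E := by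
    intro i
    have h : (f i).natDegree ≤ ∑ i, (f i).natDegree :=
      Finset.single_le_sum (f := fun i => (f i).natDegree) (fun _ _ => Nat.zero_le _)
        (Finset.mem_univ i)
    omega
  have hVe : ∀ i (hi : i < k), ∀ n, AD.VV f σ i n = ((f (σ ⟨i, hi⟩)).eval (n : ℤ)).toNat := by
    intro i hi n
    unfold AD.VV
    rw [dif_pos hi]
  have hcopV : ∀ n, n₀ ≤ n → chiP f W n ≠ 0 → ∀ i < k, Nat.Coprime (AD.VV f σ i n) W := by
    intro n hn hc i hi
    have h1 : IsCoprime ((∏ i, f i).eval (n : ℤ)) (W : ℤ) := by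
      by_contra hcon
      apply hc
      unfold chiP
      rw [if_neg hcon]
    rw [Polynomial.eval_prod] at h1
    have h2 : IsCoprime ((f (σ ⟨i, hi⟩)).eval (n : ℤ)) (W : ℤ) :=
      (IsCoprime.prod_left_iff.1 h1) _ (Finset.mem_univ _)
    have h4 := (hn₀ (σ ⟨i, hi⟩)).2 n hn
    have h5 : ((((f (σ ⟨i, hi⟩)).eval (n : ℤ)).toNat : ℕ) : ℤ) = (f (σ ⟨i, hi⟩)).eval (n : ℤ) :=
      Int.toNat_of_nonneg (by omega)
    rw [hVe i hi, ← Nat.isCoprime_iff_coprime, h5]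
    exact h2
  have hlaw := sys2 (μ := μ) hA hW lam hlam k (AD.VV f σ) n₀ (by
    intro i hi a b h1 h2
    rw [hVe i hi, hVe i hi]
    have h3 := (hn₀ (σ ⟨i, hi⟩)).1 a b h1 h2
    have h4 := (hn₀ (σ ⟨i, hi⟩)).2 a h1
    omega) (by
    intro i j hij hj n hn
    rw [hVe i (hij.trans hj), hVe j hj]
    have h3 := hσ ⟨i, hij.trans hj⟩ ⟨j, hj⟩ hij n (hn₁.trans hn)
    have h4 := (hn₀ (σ ⟨i, hij.trans hj⟩)).2 n hn
    omega) (by
    intro i hi n hn
    rw [hVe i hi]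
    have h4 := (hn₀ (σ ⟨i, hi⟩)).2 n hn
    omega) E (by
    intro i hi
    filter_upwards [ev_pow (f (σ ⟨i, hi⟩)) (hlc _) E (hEi _)] with n hn
    rw [hVe i hi]
    exact hn) (chiP f W) (chiP01 f W) (chiP_per f W) hcopV k le_rfl
  -- the products
  have hPk : ∀ n ω, n₀ ≤ n → PP A (chiP f W) (AD.VV f σ) k n ω = QQ A f n ω := by
    intro n ω hn
    have hmem : ∀ i, ((∃ v : ℕ, ω ∈ A v ∧ (f i).eval (n : ℤ) = v) ↔
        ω ∈ A ((f i).eval (n : ℤ)).toNat) := by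
      intro i
      have h1 := (hn₀ i).2 n hn
      constructor
      · rintro ⟨v, hv, hv2⟩
        rw [hv2, Int.toNat_natCast]
        exact hv
      · intro h
        exact ⟨_, h, (Int.toNat_of_nonneg (by omega)).symm⟩
    unfold PP
    rw [Finset.prod_range]
    have e1 : ∏ i : Fin k, In A (AD.VV f σ i.1 n) ω = ∏ i, In A ((f i).eval (n : ℤ)).toNat ω := by
      rw [← Equiv.prod_comp σ (fun i => In A ((f i).eval (n : ℤ)).toNat ω)]
      refine Finset.prod_congr rfl fun i _ => ?_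
      rw [hVe i.1 i.2]
    rw [e1]
    unfold QQ
    by_cases h : ∀ i, ∃ v : ℕ, ω ∈ A v ∧ (f i).eval (n : ℤ) = v
    · rw [if_pos h]
      have e2 : ∏ i, In A ((f i).eval (n : ℤ)).toNat ω = 1 :=
        Finset.prod_eq_one fun i _ => indicator_of_mem ((hmem i).1 (h i)) _
      rw [e2, mul_one]
      unfold chiP
      rw [if_pos]
      rw [Polynomial.eval_prod, IsCoprime.prod_left_iff]
      intro i _
      have h3 := (hmem i).1 (h i)
      have h4 : Nat.Coprime ((f i).eval (n : ℤ)).toNat W := by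
        by_contra hcon
        rw [hcop _ hcon] at h3
        exact h3
      have h5 : ((((f i).eval (n : ℤ)).toNat : ℕ) : ℤ) = (f i).eval (n : ℤ) :=
        Int.toNat_of_nonneg (by have := (hn₀ i).2 n hn; omega)
      rw [← h5]
      exact Nat.isCoprime_iff_coprime.2 h4
    · rw [if_neg h]
      rw [not_forall] at h
      obtain ⟨i, hi⟩ := h
      have e2 : ∏ i, In A ((f i).eval (n : ℤ)).toNat ω = 0 :=
        Finset.prod_eq_zero (Finset.mem_univ i)
          (indicator_of_notMem (fun h2 => hi ((hmem i).2 h2)) _)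
      rw [e2, mul_zero]
  set T := ∑ b ∈ Finset.range W, chiP f W b with hT
  have hT0 : 0 ≤ T := Finset.sum_nonneg fun b _ => (chiP01 f W b).1
  set K₀ : ℝ := ((W : ℝ) + 1) / T with hK₀
  have hK₀0 : 0 ≤ K₀ := by positivity
  filter_upwards [hlaw] with ω hω
  obtain ⟨C, hC0, hC⟩ := hω
  obtain ⟨X₀, hX₀⟩ := eventually_atTop.1 hC
  -- trivial bound for any sum
  have htriv : ∀ q a : ℕ, 1 ≤ q → ∀ s : Finset ℕ,
      |∑ n ∈ s, (cl q a n - kap (chiP f W) W q a) * QQ A f n ω| ≤ (1 + K₀) * s.card := by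
    intro q a hq s
    obtain ⟨k1, k2⟩ := kap_le hW hq (chiP f W) (chiP01 f W) a
    have hqR : (1 : ℝ) ≤ q := by exact_mod_cast hq
    have k3 : kap (chiP f W) W q a ≤ K₀ := k2.trans (div_le_self hK₀0 hqR)
    calc |∑ n ∈ s, (cl q a n - kap (chiP f W) W q a) * QQ A f n ω| ≤
          ∑ n ∈ s, |(cl q a n - kap (chiP f W) W q a) * QQ A f n ω| := Finset.abs_sum_le_sum_abs _ _
      _ ≤ ∑ n ∈ s, (1 + K₀) := by
        apply Finset.sum_le_sum
        intro n _
        have h1 := QQ01 A f n ω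
        have h2 := cl01 q a n
        rw [abs_mul, abs_of_nonneg h1.1]
        have h3 : |cl q a n - kap (chiP f W) W q a| ≤ 1 + K₀ := by
          rw [abs_le]
          constructor <;> linarith
        calc |cl q a n - kap (chiP f W) W q a| * QQ A f n ω ≤ (1 + K₀) * 1 :=
              mul_le_mul h3 h1.2 h1.1 (by positivity)
          _ = 1 + K₀ := mul_one _
      _ = (1 + K₀) * s.card := by rw [Finset.sum_const, nsmul_eq_mul, mul_comm]
  set X₁ := max X₀ n₀ with hX₁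
  have hl2 : 0 < Real.log 2 := Real.log_pos (by norm_num)
  refine ⟨C + (1 + K₀) * X₁ / Real.log 2, by positivity, ?_⟩
  intro x q a hx hq hqx ha
  have hxR : (2 : ℝ) ≤ x := by exact_mod_cast hx
  have hR : Real.log 2 ≤ RR x q := by
    unfold RR
    have h1 := Real.sqrt_nonneg (((x : ℝ) / q + 1) * Real.log x)
    have h2 : Real.log 2 ≤ Real.log (x : ℝ) := Real.log_le_log (by norm_num) hxR
    linarith
  have hsmall : (1 + K₀) * X₁ ≤ (1 + K₀) * X₁ / Real.log 2 * RR x q := by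
    rw [div_mul_eq_mul_div, le_div_iff₀ hl2]
    exact mul_le_mul_of_nonneg_left hR (by positivity)
  rcases Nat.lt_or_ge x X₁ with h | h
  · have h1 := htriv q a hq (Finset.range x)
    rw [Finset.card_range] at h1
    have h2 : (x : ℝ) ≤ X₁ := by exact_mod_cast h.le
    have h3 : (1 + K₀) * (x : ℝ) ≤ (1 + K₀) * X₁ := mul_le_mul_of_nonneg_left h2 (by positivity)
    have h4 : 0 ≤ C * RR x q := mul_nonneg hC0.le (RR_nonneg _ _)
    nlinarith
  · have h5 := hX₀ x ((le_max_left _ _).trans h) q a x hq hqx ha ((le_max_right _ _).trans h) le_rfl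
    have e1 : ∑ n ∈ Finset.range x, (cl q a n - kap (chiP f W) W q a) * QQ A f n ω =
        ∑ n ∈ Finset.range n₀, (cl q a n - kap (chiP f W) W q a) * QQ A f n ω +
        ∑ n ∈ Finset.Ico n₀ x, (cl q a n - kap (chiP f W) W q a) * PP A (chiP f W) (AD.VV f σ) k n ω := by
      rw [Finset.range_eq_Ico, ← Finset.sum_Ico_consecutive _ (Nat.zero_le n₀)
        ((le_max_right _ _).trans h), ← Finset.range_eq_Ico]
      congr 1
      refine Finset.sum_congr rfl fun n hn => ?_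
      rw [hPk n ω (Finset.mem_Ico.1 hn).1]
    rw [e1]
    have h6 := htriv q a hq (Finset.range n₀)
    rw [Finset.card_range] at h6
    have h7 : (n₀ : ℝ) ≤ X₁ := by exact_mod_cast le_max_right _ _
    have h8 : (1 + K₀) * (n₀ : ℝ) ≤ (1 + K₀) * X₁ := mul_le_mul_of_nonneg_left h7 (by positivity)
    have h9 := abs_add_le (∑ n ∈ Finset.range n₀, (cl q a n - kap (chiP f W) W q a) * QQ A f n ω)
      (∑ n ∈ Finset.Ico n₀ x, (cl q a n - kap (chiP f W) W q a) * PP A (chiP f W) (AD.VV f σ) k n ω)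
    nlinarith

end Pool.Agent.N9.EH
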