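import Mathlib
import Pool.Agent.N9.EH.PolyE

set_option autoImplicit false
set_option linter.unusedSectionVars false

/-! # From residue classes to averages over the moduli -/

open MeasureTheory Filter Set Polynomial
open scoped ENNReal Topology

namespace Pool.Agent.N9.EH

open Pool.Agent.R528.RM Pool.Agent.N893.SM Pool.Agent.N9.AD

/-- the error term without the one -/
noncomputable def RS (x q : ℕ) : ℝ := √((x : ℝ) / q * Real.log x) + Real.log x

lemma RR_RS {x q : ℕ} (hx : 2 ≤ x) (hq : 1 ≤ q) (hqx : q ≤ x) : RR (x + 1) q ≤ 4 * RS x q := by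
  unfold RR RS
  have hxR : (2 : ℝ) ≤ x := by exact_mod_cast hx
  have hqR : (1 : ℝ) ≤ q := by exact_mod_cast hq
  have hqx' : (q : ℝ) ≤ x := by exact_mod_cast hqx
  have hq0 : (0 : ℝ) < q := by linarith
  have hL : 0 ≤ Real.log (x : ℝ) := Real.log_nonneg (by linarith)
  have h1 : Real.log ((x + 1 : ℕ) : ℝ) ≤ 2 * Real.log x := by
    have e1 : Real.log ((x + 1 : ℕ) : ℝ) ≤ Real.log ((x : ℝ) ^ 2) := by
      apply Real.log_le_log (by positivity)
      push_cast
      nlinarith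
    rw [Real.log_pow] at e1
    exact_mod_cast e1
  have h1' : 0 ≤ Real.log ((x + 1 : ℕ) : ℝ) := Real.log_natCast_nonneg _
  have h2 : ((x + 1 : ℕ) : ℝ) / q + 1 ≤ 4 * (x / q) := by
    have e1 : 1 ≤ (x : ℝ) / q := by
      rw [le_div_iff₀ hq0]
      linarith
    have e2 : ((x + 1 : ℕ) : ℝ) / q = x / q + 1 / q := by
      push_cast
      rw [add_div]
    have e3 : 1 / (q : ℝ) ≤ 1 := by
      rw [div_le_one hq0]
      exact hqR
    rw [e2]
    linarith
  have h3 : √((((x + 1 : ℕ) : ℝ) / q + 1) * Real.log ((x + 1 : ℕ) : ℝ)) ≤ 4 * √((x : ℝ) / q * Real.log x) := by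
    have hxq : 0 ≤ (x : ℝ) / q * Real.log x := by positivity
    calc √((((x + 1 : ℕ) : ℝ) / q + 1) * Real.log ((x + 1 : ℕ) : ℝ)) ≤ √(4 ^ 2 * ((x : ℝ) / q * Real.log x)) := by
          apply Real.sqrt_le_sqrt
          calc (((x + 1 : ℕ) : ℝ) / q + 1) * Real.log ((x + 1 : ℕ) : ℝ) ≤
                (4 * (x / q)) * (2 * Real.log x) := mul_le_mul h2 h1 h1' (by positivity)
            _ = 8 * ((x : ℝ) / q * Real.log x) := by ring
            _ ≤ 4 ^ 2 * ((x : ℝ) / q * Real.log x) := by nlinarith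
      _ = 4 * √((x : ℝ) / q * Real.log x) := by
          rw [Real.sqrt_mul (by norm_num), Real.sqrt_sq (by norm_num)]
  linarith

lemma RS_nonneg (x q : ℕ) : 0 ≤ RS x q := add_nonneg (Real.sqrt_nonneg _) (Real.log_natCast_nonneg x)

/-- the class law for `1 ≤ n ≤ x` -/
theorem poly3 {Ω : Type} {A : ℕ → Set Ω} {ω : Ω} {W : ℕ} (hW : 0 < W) {k : ℕ} (f : Fin k → ℤ[X])
    {C : ℝ} (hC : 0 < C) (h : ∀ x q a : ℕ, 2 ≤ x → 1 ≤ q → q ≤ x → a < q →
      |∑ n ∈ Finset.range x, (cl q a n - kap (chiP f W) W q a) * QQ A f n ω| ≤ C * RR x q) :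
    ∃ C' : ℝ, 0 < C' ∧ ∀ x q a : ℕ, 2 ≤ x → 1 ≤ q → q ≤ x → a < q →
      |∑ n ∈ Finset.Icc 1 x, cl q a n * QQ A f n ω -
        kap (chiP f W) W q a * ∑ n ∈ Finset.Icc 1 x, QQ A f n ω| ≤ C' * RS x q := by
  set T := ∑ b ∈ Finset.range W, chiP f W b with hT
  have hT0 : 0 ≤ T := Finset.sum_nonneg fun b _ => (chiP01 f W b).1
  set K₀ : ℝ := ((W : ℝ) + 1) / T with hK₀
  have hK₀0 : 0 ≤ K₀ := by positivity
  have hl2 : 0 < Real.log 2 := Real.log_pos (by norm_num)
  refine ⟨4 * C + (1 + K₀) / Real.log 2, by positivity, ?_⟩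
  intro x q a hx hq hqx ha
  have h1 := h (x + 1) q a (by omega) hq (by omega) ha
  rw [Finset.sum_range_succ'] at h1
  have e1 : ∑ n ∈ Finset.Icc 1 x, cl q a n * QQ A f n ω -
      kap (chiP f W) W q a * ∑ n ∈ Finset.Icc 1 x, QQ A f n ω =
      ∑ n ∈ Finset.range x, (cl q a (n + 1) - kap (chiP f W) W q a) * QQ A f (n + 1) ω := by
    rw [Finset.mul_sum, ← Finset.sum_sub_distrib, Finset.range_eq_Ico, Finset.sum_Ico_add'
      (fun n => (cl q a n - kap (chiP f W) W q a) * QQ A f n ω) 0 x 1, zero_add]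
    refine Finset.sum_congr ?_ fun n _ => by ring
    ext n
    simp only [Finset.mem_Icc, Finset.mem_Ico]
    omega
  rw [e1]
  have h2 : |(cl q a 0 - kap (chiP f W) W q a) * QQ A f 0 ω| ≤ 1 + K₀ := by
    obtain ⟨k1, k2⟩ := kap_le hW hq (chiP f W) (chiP01 f W) a
    have hqR : (1 : ℝ) ≤ q := by exact_mod_cast hq
    have k3 : kap (chiP f W) W q a ≤ K₀ := k2.trans (div_le_self hK₀0 hqR)
    have h1 := QQ01 A f 0 ω
    have h2 := cl01 q a 0
    rw [abs_mul, abs_of_nonneg h1.1]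
    have h3 : |cl q a 0 - kap (chiP f W) W q a| ≤ 1 + K₀ := by
      rw [abs_le]
      constructor <;> linarith
    calc |cl q a 0 - kap (chiP f W) W q a| * QQ A f 0 ω ≤ (1 + K₀) * 1 :=
          mul_le_mul h3 h1.2 h1.1 (by positivity)
      _ = 1 + K₀ := mul_one _
  have hR : Real.log 2 ≤ RS x q := by
    unfold RS
    have h1 := Real.sqrt_nonneg ((x : ℝ) / q * Real.log x)
    have h2 : Real.log 2 ≤ Real.log (x : ℝ) := Real.log_le_log (by norm_num) (by exact_mod_cast hx)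
    linarith
  have h3 : 1 + K₀ ≤ (1 + K₀) / Real.log 2 * RS x q := by
    rw [div_mul_eq_mul_div, le_div_iff₀ hl2]
    exact mul_le_mul_of_nonneg_left hR (by positivity)
  have h4 := RR_RS hx hq hqx
  have h5 : C * RR (x + 1) q ≤ C * (4 * RS x q) := mul_le_mul_of_nonneg_left h4 hC.le
  rw [abs_le] at h1 h2 ⊢
  constructor <;> linarith [h1.1, h1.2, h2.1, h2.2]

/-- averages of the error terms -/
lemma avg {x Q : ℕ} (hx : 2 ≤ x) :
    ∑ q ∈ Finset.Icc 1 Q, RS x q ≤ 2 * (√((x : ℝ) * Q * Real.log x) + Q * Real.log x) := by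
  have hL : 0 ≤ Real.log (x : ℝ) := Real.log_natCast_nonneg x
  unfold RS
  rw [Finset.sum_add_distrib, Finset.sum_const, Nat.card_Icc, Nat.add_sub_cancel, nsmul_eq_mul]
  have h1 : ∀ Q : ℕ, ∑ q ∈ Finset.Icc 1 Q, √((x : ℝ) / q * Real.log x) ≤
      2 * √(x * Real.log x) * √Q := by
    intro Q
    induction Q with
    | zero => simp
    | succ Q ih =>
      rw [Finset.sum_Icc_succ_top (by omega)]
      have hQ0 : (0 : ℝ) ≤ Q := Nat.cast_nonneg Q
      have e1 : √((x : ℝ) / ((Q + 1 : ℕ) : ℝ) * Real.log x) = √(x * Real.log x) * (1 / √((Q : ℝ) + 1)) := by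
        rw [show (x : ℝ) / ((Q + 1 : ℕ) : ℝ) * Real.log x = (x * Real.log x) / ((Q : ℝ) + 1) by
          push_cast; ring, Real.sqrt_div (by positivity)]
        ring
      have e2 : 1 / √((Q : ℝ) + 1) ≤ 2 * (√((Q : ℝ) + 1) - √Q) := by
        have s1 : 0 < √((Q : ℝ) + 1) := Real.sqrt_pos.2 (by positivity)
        have s2 : 0 ≤ √(Q : ℝ) := Real.sqrt_nonneg _
        have s3 : √((Q : ℝ) + 1) * √((Q : ℝ) + 1) = Q + 1 := Real.mul_self_sqrt (by positivity)
        have s4 : √(Q : ℝ) * √(Q : ℝ) = Q := Real.mul_self_sqrt hQ0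
        have s5 : √(Q : ℝ) ≤ √((Q : ℝ) + 1) := Real.sqrt_le_sqrt (by linarith)
        rw [div_le_iff₀ s1]
        nlinarith [sq_nonneg (√((Q : ℝ) + 1) - √Q)]
      rw [e1]
      have s0 := Real.sqrt_nonneg ((x : ℝ) * Real.log x)
      have e3 := mul_le_mul_of_nonneg_left e2 s0
      push_cast
      nlinarith
  have h2 : √(x * Real.log x) * √(Q : ℝ) = √((x : ℝ) * Q * Real.log x) := by
    rw [← Real.sqrt_mul (by positivity)]
    congr 1
    ring
  have h3 := h1 Q
  have h4 : 0 ≤ (Q : ℝ) * Real.log x := by positivity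
  rw [mul_assoc, h2] at h3
  linarith

/-- the level of distribution -/
lemma level (θ B : ℝ) (hθ : θ < 1) : ∃ M : ℝ, 0 < M ∧ ∀ x Q : ℕ, 2 < x → (Q : ℝ) ≤ (x : ℝ) ^ θ →
    √((x : ℝ) * Q * Real.log x) + Q * Real.log x ≤ M * x * Real.log x ^ (-B) := by
  set t : ℝ := max θ (1 / 2) with ht
  have ht1 : t < 1 := max_lt hθ (by norm_num)
  have ht0 : (0 : ℝ) < t := lt_of_lt_of_le (by norm_num) (le_max_right _ _)
  set r : ℝ := (1 - t) / 2 with hr
  have hr0 : 0 < r := by
    rw [hr]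
    linarith
  have hlim : Tendsto (fun x : ℕ => Real.log (x : ℝ) ^ (B + 1) / (x : ℝ) ^ r) atTop (𝓝 0) := by
    have h1 := (isLittleO_log_rpow_rpow_atTop (B + 1) hr0).tendsto_div_nhds_zero
    exact h1.comp tendsto_natCast_atTop_atTop
  obtain ⟨M, hM⟩ := hlim.bddAbove_range
  have hM' : ∀ x : ℕ, Real.log (x : ℝ) ^ (B + 1) / (x : ℝ) ^ r ≤ M := fun x => hM ⟨x, rfl⟩
  refine ⟨2 * (|M| + 1), by positivity, ?_⟩
  intro x Q hx hQ
  have hxR : (3 : ℝ) ≤ x := by exact_mod_cast hx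
  have hx0 : (0 : ℝ) < x := by linarith
  have hx1 : (1 : ℝ) ≤ x := by linarith
  have hL1 : 1 ≤ Real.log (x : ℝ) := by
    rw [Real.le_log_iff_exp_le hx0]
    have := Real.exp_one_lt_d9
    linarith
  have hL0 : 0 < Real.log (x : ℝ) := by linarith
  have hQt : (Q : ℝ) ≤ (x : ℝ) ^ t := hQ.trans (Real.rpow_le_rpow_of_exponent_le hx1 (le_max_left _ _))
  have hQ0 : (0 : ℝ) ≤ Q := Nat.cast_nonneg Q
  set s : ℝ := (1 + t) / 2 with hs
  have hxs : 0 < (x : ℝ) ^ s := Real.rpow_pos_of_pos hx0 _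
  have h1 : √((x : ℝ) * Q * Real.log x) ≤ (x : ℝ) ^ s * Real.log x := by
    rw [Real.sqrt_le_left (by positivity)]
    have e1 : ((x : ℝ) ^ s * Real.log x) ^ 2 = (x * (x : ℝ) ^ t) * Real.log x ^ 2 := by
      rw [mul_pow, ← Real.rpow_natCast ((x : ℝ) ^ s) 2, ← Real.rpow_mul hx0.le]
      congr 1
      rw [show s * ((2 : ℕ) : ℝ) = 1 + t by rw [hs]; push_cast; ring, Real.rpow_add hx0, Real.rpow_one]
    rw [e1]
    have e2 : (x : ℝ) * Q ≤ x * (x : ℝ) ^ t := mul_le_mul_of_nonneg_left hQt hx0.le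
    have e3 : Real.log (x : ℝ) ≤ Real.log x ^ 2 := by nlinarith
    exact mul_le_mul e2 e3 hL0.le (by positivity)
  have h2 : (Q : ℝ) * Real.log x ≤ (x : ℝ) ^ s * Real.log x := by
    apply mul_le_mul_of_nonneg_right _ hL0.le
    apply hQt.trans
    apply Real.rpow_le_rpow_of_exponent_le hx1
    rw [hs]
    linarith
  have h3 : (x : ℝ) ^ s * Real.log x ≤ (|M| + 1) * x * Real.log x ^ (-B) := by
    have e1 := hM' x
    have hxr : 0 < (x : ℝ) ^ r := Real.rpow_pos_of_pos hx0 _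
    rw [div_le_iff₀ hxr] at e1
    have e2 : Real.log (x : ℝ) ^ (B + 1) ≤ (|M| + 1) * (x : ℝ) ^ r := by
      refine e1.trans ?_
      apply mul_le_mul_of_nonneg_right _ hxr.le
      linarith [le_abs_self M]
    have e3 : (x : ℝ) ^ s * (x : ℝ) ^ r = x := by
      rw [← Real.rpow_add hx0, show s + r = 1 by rw [hs, hr]; ring, Real.rpow_one]
    have e4 : Real.log (x : ℝ) ^ (B + 1) * Real.log x ^ (-B) = Real.log x := by
      rw [← Real.rpow_add hL0, show B + 1 + -B = 1 by ring, Real.rpow_one]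
    have hLB : 0 < Real.log (x : ℝ) ^ (-B) := Real.rpow_pos_of_pos hL0 _
    calc (x : ℝ) ^ s * Real.log x = (x : ℝ) ^ s * (Real.log (x : ℝ) ^ (B + 1) * Real.log x ^ (-B)) := by rw [e4]
      _ ≤ (x : ℝ) ^ s * (((|M| + 1) * (x : ℝ) ^ r) * Real.log x ^ (-B)) := by gcongr
      _ = (|M| + 1) * ((x : ℝ) ^ s * (x : ℝ) ^ r) * Real.log x ^ (-B) := by ring
      _ = _ := by rw [e3]
  linarith

/-- the share of an admissible class for the integers themselves -/
lemma kapX (Q : Finset ℕ) (hQ : ∀ p ∈ Q, p.Prime) {q a : ℕ} (hq : 1 ≤ q) (ha : a < q)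
    (had : Ad Q q a) (chi : ℕ → ℝ) (hchi : ∀ n, chi n = if Nat.Coprime n (∏ p ∈ Q, p) then 1 else 0) :
    kap chi (∏ p ∈ Q, p) q a = 1 / phiQ Q q := by
  classical
  set W := ∏ p ∈ Q, p with hWdef
  have hW : 0 < W := Finset.prod_pos fun q hq => (hQ q hq).pos
  have hper : ∀ n, chi (n + W) = chi n := by
    intro n
    rw [hchi, hchi]
    have e : (n + W).Coprime W ↔ n.Coprime W := by rw [Nat.coprime_add_self_left]
    by_cases h : n.Coprime W
    · rw [if_pos h, if_pos (e.2 h)]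
    · rw [if_neg h, if_neg (fun h' => h (e.1 h'))]
  obtain ⟨p1, p2⟩ := phiQ_bounds Q hQ q
  have hqR : (1 : ℝ) ≤ q := by exact_mod_cast hq
  have hphi : 0 < phiQ Q q := lt_of_lt_of_le (by positivity) p1
  -- representative in `[1, q]`
  obtain ⟨a', g1, g2, g3⟩ : ∃ a' : ℕ, 1 ≤ a' ∧ a' ≤ q ∧ a' % q = a := by
    by_cases h0 : a = 0
    · exact ⟨q, hq, le_rfl, by rw [Nat.mod_self, h0]⟩
    · exact ⟨a, by omega, ha.le, Nat.mod_eq_of_lt ha⟩
  have had' : Ad Q q a' := by
    intro p hp h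
    apply had p hp
    refine ⟨?_, h.2⟩
    rw [← g3]
    exact (Nat.dvd_mod_iff h.2).2 h.1
  set T := ∑ b ∈ Finset.range W, chi b with hT
  set K := ∑ b ∈ Finset.range (W * q), cl q a b * chi b with hK
  have hfull : ∀ N, SA (fun m => if m.Coprime W then 1 else 0) (W * q * N) q a' = N * K := by
    intro N
    unfold SA
    rw [Finset.sum_filter]
    have e1 : ∀ n ∈ Finset.Icc 1 (W * q * N), (if n ≡ a' [MOD q] then (if n.Coprime W then (1 : ℝ) else 0) else 0) =
        cl q a n * chi n := by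
      intro n _
      unfold cl
      rw [hchi]
      have : n ≡ a' [MOD q] ↔ n % q = a := by
        unfold Nat.ModEq
        rw [g3]
      by_cases h : n % q = a
      · rw [if_pos h, if_pos (this.2 h), one_mul]
      · rw [if_neg h, if_neg (fun h' => h (this.1 h')), zero_mul]
    rw [Finset.sum_congr rfl e1]
    have hper2 : ∀ n, cl q a (n + W * q) * chi (n + W * q) = cl q a n * chi n := by
      intro n
      have e1 : cl q a (n + W * q) = cl q a n := by
        unfold cl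
        rw [Nat.add_mul_mod_self_right]
      rw [e1, per_mul chi hper]
    have e2 := wins (P := W * q) (fun n => cl q a n * chi n) hper2 N 1
    rw [← hK] at e2
    rw [← e2]
    apply Finset.sum_congr _ fun _ _ => rfl
    ext n
    simp only [Finset.mem_Icc, Finset.mem_Ico]
    omega
  have hone : ∀ N, SA (fun m => if m.Coprime W then 1 else 0) (W * q * N) 1 1 = N * (q * T) := by
    intro N
    unfold SA
    rw [Finset.sum_filter]
    have e1 : ∀ n ∈ Finset.Icc 1 (W * q * N), (if n ≡ 1 [MOD 1] then (if n.Coprime W then (1 : ℝ) else 0) else 0) =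
        chi n := by
      intro n _
      rw [hchi, if_pos Nat.modEq_one]
    rw [Finset.sum_congr rfl e1]
    have e2 := wins (P := W * q) chi (per_mul chi hper q) N 1
    have e3 := wins (P := W) chi hper q 0
    rw [zero_add, ← Finset.range_eq_Ico] at e3
    rw [e3] at e2
    rw [← e2]
    apply Finset.sum_congr _ fun _ _ => rfl
    ext n
    simp only [Finset.mem_Icc, Finset.mem_Ico]
    omega
  have hKT : K = q * T / phiQ Q q := by
    by_contra hne
    have hδ : 0 < |K - q * T / phiQ Q q| := abs_pos.2 (sub_ne_zero.2 hne)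
    obtain ⟨N, hN⟩ := exists_nat_gt ((2 * (W : ℝ) ^ 2 + 2) / |K - q * T / phiQ Q q|)
    rw [div_lt_iff₀ hδ] at hN
    have h1 := cop_equi Q hQ hq g1 g2 had' (W * q * N)
    rw [← hWdef, hfull, hone] at h1
    have e1 : (N : ℝ) * K - N * (q * T) / phiQ Q q = N * (K - q * T / phiQ Q q) := by ring
    rw [e1, abs_mul, abs_of_nonneg (Nat.cast_nonneg N)] at h1
    linarith
  have hT1 : 0 < T := by
    have h01 : ∀ n, 0 ≤ chi n := by
      intro n
      rw [hchi]
      split_ifs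
      · exact zero_le_one
      · exact le_rfl
    have h1 : chi (1 % W) ≤ T := Finset.single_le_sum (f := chi) (fun i _ => h01 i)
      (Finset.mem_range.2 (Nat.mod_lt 1 hW))
    have h2 : chi (1 % W) = 1 := by
      rw [hchi, if_pos]
      rcases Nat.eq_or_lt_of_le (Nat.succ_le_of_lt hW) with h | h
      · have : W = 1 := h.symm
        rw [this]
        simp
      · rw [Nat.mod_eq_of_lt h]
        exact Nat.coprime_one_left W
    linarith
  have hq0 : (0 : ℝ) < q := by linarith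
  show K / (q * T) = 1 / phiQ Q q
  rw [hKT]
  field_simp

end Pool.Agent.N9.EH
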